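import Mathlib
import Pool.Agent.H62.Bend4

/-!
# The bend number depends on the chosen slopes

There is one graph `G` (with 144 vertices) such that, for every `d ≥ 4`, `b_d(G) ≤ 1` while some
set `D` of `d` slopes has `β_D(G) ≥ 2`; in particular `β_D(G) > b_d(G)`.

The common neighbours in a `K_{2,8}` with a one-bend representation come in pairs of polylines with
the same bend and opposite arms. Such pairs are used to force the bends of several polylines to
coincide, and `G` forces a non-degenerate complete quadrangle whose six sides are parallel to lines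
of `D`. The square with its two diagonals shows that this is possible if `D` contains the slopes
`0, ∞, 1, -1`; for a generic `D` it is impossible.
-/

set_option autoImplicit false

namespace Pool.Agent.Results.MP_4b3eba_co.SlopeDependence

open Pool.Agent.H62.Bend

lemma finrank_span {u : Pt} (hu : u ≠ 0) : Module.finrank ℝ (Submodule.span ℝ {u}) = 1 :=
  finrank_span_singleton hu

lemma upper (d : ℕ) (hd : 4 ≤ d) : bendNumber d G0 ≤ 1 := by
  classical
  obtain ⟨S, hS, hcard⟩ := Infinite.exists_superset_card_eq ({0, 1, -1} : Finset ℝ) (d - 1)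
    (le_trans (Finset.card_le_three) (by omega))
  let D : Finset (Submodule ℝ Pt) :=
    insert (Submodule.span ℝ {((0, 1) : Pt)}) (S.image fun m : ℝ => Submodule.span ℝ {((1, m) : Pt)})
  have hD : IsSlopeSet d D := by
    constructor
    · intro L hL
      simp only [D, Finset.mem_insert, Finset.mem_image] at hL
      rcases hL with rfl | ⟨m, _, rfl⟩
      · exact finrank_span (by simp)
      · exact finrank_span (by simp)
    · rw [Finset.card_insert_of_notMem, Finset.card_image_of_injective, hcard]
      · omega
      · intro m m' h
        by_contra hne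
        refine span_inj (u := (1, m)) (w := (1, m')) ?_ h
        simp only [det, one_mul, mul_one]
        exact fun h0 => hne (sub_eq_zero.1 h0).symm
      · rw [Finset.mem_image]
        rintro ⟨m, _, h⟩
        refine span_inj (u := (1, m)) (w := (0, 1)) ?_ h
        simp [det]
  have hrep : HasRep D 1 G0 := by
    apply hasRep
    intro i
    fin_cases i
    · change Submodule.span ℝ {((1, 0) : Pt)} ∈ D
      exact Finset.mem_insert_of_mem (Finset.mem_image_of_mem _ (hS (by simp)))
    · change Submodule.span ℝ {((0, 1) : Pt)} ∈ D
      exact Finset.mem_insert_self _ _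
    · change Submodule.span ℝ {((1, 1) : Pt)} ∈ D
      exact Finset.mem_insert_of_mem (Finset.mem_image_of_mem _ (hS (by simp)))
    · change Submodule.span ℝ {((-1, 1) : Pt)} ∈ D
      have : Submodule.span ℝ {((-1, 1) : Pt)} = Submodule.span ℝ {((1, -1) : Pt)} := by
        apply le_antisymm <;>
          rw [Submodule.span_singleton_le_iff_mem, Submodule.mem_span_singleton] <;>
          exact ⟨-1, by simp⟩
      rw [this]
      exact Finset.mem_insert_of_mem (Finset.mem_image_of_mem _ (hS (by simp)))
  have h1 : beta D G0 ≤ 1 := by
    unfold beta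
    exact iInf₂_le_of_le 1 hrep (by simp)
  exact (iInf₂_le D hD).trans h1

lemma lower (d : ℕ) : ∃ D, IsSlopeSet d D ∧ 1 < beta D G0 := by
  classical
  obtain ⟨v, hv, hq⟩ := exists_noQuad d
  refine ⟨Finset.univ.image fun i => Submodule.span ℝ {v i}, ⟨?_, ?_⟩, ?_⟩
  · intro L hL
    simp only [Finset.mem_image, Finset.mem_univ, true_and] at hL
    obtain ⟨i, rfl⟩ := hL
    exact finrank_span (hv.1 i)
  · rw [Finset.card_image_of_injective, Finset.card_univ, Fintype.card_fin]
    intro i j h
    by_contra hne
    exact span_inj (hv.2 i j hne) h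
  · have hno : ¬ HasRep (Finset.univ.image fun i => Submodule.span ℝ {v i}) 1 G0 := by
      apply not_hasRep hv hq
      intro L hL
      simp only [Finset.mem_image, Finset.mem_univ, true_and] at hL
      obtain ⟨i, rfl⟩ := hL
      exact ⟨i, rfl⟩
    have h2 : (2 : ℕ∞) ≤ beta (Finset.univ.image fun i => Submodule.span ℝ {v i}) G0 := by
      unfold beta
      refine le_iInf₂ fun k hk => ?_
      have hk' : ¬ k ≤ 1 := by
        intro hk1
        apply hno
        obtain ⟨P, hP, hadj⟩ := hk
        refine ⟨P, fun x => ?_, hadj⟩
        obtain ⟨m, hm, c, hc⟩ := hP x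
        exact ⟨m, hm.trans hk1, c, hc⟩
      have : 2 ≤ k := by omega
      exact_mod_cast this
    exact lt_of_lt_of_le (by norm_num) h2

/-- **Negative answer to Q1**, for every `d ≥ 4` and with one and the same graph `G`: the `d`-bend
number of `G` is at most `1`, but for some set `D` of `d` slopes `β_D(G)` is larger than `1`. -/
theorem result : ∃ (V : Type) (_ : Fintype V) (G : SimpleGraph V), ∀ d : ℕ, 4 ≤ d →
    ∃ D : Finset (Submodule ℝ Pt), IsSlopeSet d D ∧ bendNumber d G ≤ 1 ∧ 1 < beta D G ∧
      bendNumber d G < beta D G := by
  refine ⟨V, inferInstance, G0, fun d hd => ?_⟩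
  obtain ⟨D, hD, hlt⟩ := lower d
  exact ⟨D, hD, upper d hd, hlt, lt_of_le_of_lt (upper d hd) hlt⟩

end Pool.Agent.Results.MP_4b3eba_co.SlopeDependence
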